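import Mathlib
import Pool.Agent.V1193.BP.F

set_option autoImplicit false

/-!
# Both components prime: the law of the common exponents in the mean over base and amplitudes

The positive solutions of `p ^ 2 - 2 r ^ 2 = -1` are `p = H n`, `r = R n` with `n` odd, where
`H n + R n √2 = (1 + √2) ^ n`.  For `n` odd, `H n` is the largest integer below `1 / 2 * (1 + √2) ^ n`
and `R n` is the smallest integer that is at least `1 / (2 √2) * (1 + √2) ^ n`; for primes `n ≥ 5`
their prime factors exceed `n`.  For real `α > 1`, `β, δ > 0` let `V α β n` be the `n`-rough part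
(the product, with multiplicity, of the prime factors larger than `n`) of the largest integer below
`β * α ^ n`, let `U α δ n` be the `n`-rough part of the smallest integer `≥ δ * α ^ n`, and for a set
`S` of exponents let `N S α β δ` be the set of the `n ∈ S` for which both are prime.  So the second
question of the problem is whether `N S (1 + √2) (1 / 2) (1 / (2 √2))` is infinite, `S` = the primes.

We prove, for every infinite set `S` and with the weights `(log n / n) ^ 2`, the exact asymptotic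
law of the largest element of `N S α β δ` in the mean over `log α`, `log β`, `log δ` (masses, tails,
mean numbers, and a bound with a power saving for two elements), and for every fixed base `α` the
masses and the mean number in the mean over `log β`, `log δ`, and the finiteness almost everywhere.
-/

namespace Pool.Agent.Results.MP_927e73_nt.BothPrimeLaw

open Filter Topology MeasureTheory

/-- The numbers `1, 1, 3, 7, 17, 41, …`: the first components of the powers of `1 + √2`. -/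
def H : ℕ → ℕ
  | 0 => 1
  | 1 => 1
  | (n + 2) => 2 * H (n + 1) + H n

/-- The Pell numbers `0, 1, 2, 5, 12, 29, …`: the second components of the powers of `1 + √2`. -/
def R : ℕ → ℕ
  | 0 => 0
  | 1 => 1
  | (n + 2) => 2 * R (n + 1) + R n

/-- The positive solutions of `p ^ 2 - 2 r ^ 2 = -1`. -/
def Sol (p r : ℕ) : Prop := 0 < p ∧ 0 < r ∧ (p : ℤ) ^ 2 - 2 * (r : ℤ) ^ 2 = -1

/-- The product, with multiplicity, of the prime factors of `m` that are larger than `p`. -/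
def roughPart (p m : ℕ) : ℕ := (m.primeFactorsList.filter (fun r => p < r)).prod

/-- The `n`-rough part of the largest integer below `β * α ^ n`. -/
noncomputable def V (α β : ℝ) (n : ℕ) : ℕ := roughPart n (⌈β * α ^ n⌉₊ - 1)

/-- The `n`-rough part of the smallest integer that is at least `δ * α ^ n`. -/
noncomputable def U (α δ : ℝ) (n : ℕ) : ℕ := roughPart n ⌈δ * α ^ n⌉₊

/-- The exponents `n ∈ S` with both values prime. -/
def N (S : Set ℕ) (α β δ : ℝ) : Set ℕ := {n | n ∈ S ∧ (V α β n).Prime ∧ (U α δ n).Prime}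

/-- The sum of the weights `(log m / m) ^ 2` over the `m ∈ S`, `m ≥ n`. -/
noncomputable def tail (S : Set ℕ) (n : ℕ) : ℝ :=
  ∑' k : ℕ, S.indicator (fun m : ℕ => (Real.log m / m) ^ 2) (n + k)

/-- The constant of the mean over base and amplitudes: the integral of `(e ^ γ / x) ^ 2` over the box
`(x0, x1] × (y0, y1] × (u0, u1]`. -/
noncomputable def L (x0 x1 y0 y1 u0 u1 : ℝ) : ℝ :=
  Real.exp Real.eulerMascheroniConstant ^ 2 * (1 / x0 - 1 / x1) * (y1 - y0) * (u1 - u0)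

/-- The constant for a fixed base. -/
noncomputable def L' (α y0 y1 u0 u1 : ℝ) : ℝ :=
  (Real.exp Real.eulerMascheroniConstant * (y1 - y0) / Real.log α) *
    (Real.exp Real.eulerMascheroniConstant * (u1 - u0) / Real.log α)

lemma H_eq (n : ℕ) : H n = Pool.Agent.V1193.BP.Pell.H n := by
  induction n using Nat.twoStepInduction with
  | zero => rfl
  | one => rfl
  | more n h1 h2 =>
    show 2 * H (n + 1) + H n = 2 * Pool.Agent.V1193.BP.Pell.H (n + 1) + Pool.Agent.V1193.BP.Pell.H n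
    rw [h1, h2]

lemma R_eq (n : ℕ) : R n = Pool.Agent.V1193.BP.Pell.R n := by
  induction n using Nat.twoStepInduction with
  | zero => rfl
  | one => rfl
  | more n h1 h2 =>
    show 2 * R (n + 1) + R n = 2 * Pool.Agent.V1193.BP.Pell.R (n + 1) + Pool.Agent.V1193.BP.Pell.R n
    rw [h1, h2]

/-- **Main theorem.** -/
theorem result :
    -- the solutions of the equation and the second question
    (∀ p r : ℕ, Sol p r ↔ ∃ k : ℕ, p = H (2 * k + 1) ∧ r = R (2 * k + 1)) ∧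
    (∀ n : ℕ, n.Prime → 5 ≤ n →
      V (1 + Real.sqrt 2) (1 / 2) n = H n ∧ U (1 + Real.sqrt 2) (1 / (2 * Real.sqrt 2)) n = R n) ∧
    ({z : ℕ × ℕ | Sol z.1 z.2 ∧ z.1.Prime ∧ z.2.Prime}.Infinite ↔
      (N {n | n.Prime} (1 + Real.sqrt 2) (1 / 2) (1 / (2 * Real.sqrt 2))).Infinite) ∧
    -- finiteness almost everywhere
    (∀ᵐ z : ℝ × ℝ × ℝ, 0 < z.1 →
      (N Set.univ (Real.exp z.1) (Real.exp z.2.1) (Real.exp z.2.2)).Finite) ∧
    -- the mean over base and amplitudes
    (∀ S : Set ℕ, S.Infinite → ∀ x0 x1 y0 y1 u0 u1 : ℝ, 0 < x0 → x0 < x1 → y0 < y1 → u0 < u1 →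
      Tendsto (fun n : ℕ => volume.real {z ∈ Set.Ioc x0 x1 ×ˢ (Set.Ioc y0 y1 ×ˢ Set.Ioc u0 u1) |
        n ∈ N S (Real.exp z.1) (Real.exp z.2.1) (Real.exp z.2.2)} / (Real.log n / n) ^ 2)
        (atTop ⊓ 𝓟 S) (𝓝 (L x0 x1 y0 y1 u0 u1)) ∧
      Tendsto (fun n : ℕ => volume.real {z ∈ Set.Ioc x0 x1 ×ˢ (Set.Ioc y0 y1 ×ˢ Set.Ioc u0 u1) |
        IsGreatest (N S (Real.exp z.1) (Real.exp z.2.1) (Real.exp z.2.2)) n} /
          (Real.log n / n) ^ 2) (atTop ⊓ 𝓟 S) (𝓝 (L x0 x1 y0 y1 u0 u1)) ∧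
      Tendsto (fun n : ℕ => volume.real {z ∈ Set.Ioc x0 x1 ×ˢ (Set.Ioc y0 y1 ×ˢ Set.Ioc u0 u1) |
        ∃ m ∈ N S (Real.exp z.1) (Real.exp z.2.1) (Real.exp z.2.2), n ≤ m} / tail S n)
        atTop (𝓝 (L x0 x1 y0 y1 u0 u1)) ∧
      Tendsto (fun n : ℕ => (∫ z in Set.Ioc x0 x1 ×ˢ (Set.Ioc y0 y1 ×ˢ Set.Ioc u0 u1),
        ((N S (Real.exp z.1) (Real.exp z.2.1) (Real.exp z.2.2) ∩ Set.Ici n).ncard : ℝ)) / tail S n)
        atTop (𝓝 (L x0 x1 y0 y1 u0 u1)) ∧
      ∃ K : ℝ, ∀ᶠ n : ℕ in atTop,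
        volume.real {z ∈ Set.Ioc x0 x1 ×ˢ (Set.Ioc y0 y1 ×ˢ Set.Ioc u0 u1) |
          ∃ p ∈ N S (Real.exp z.1) (Real.exp z.2.1) (Real.exp z.2.2),
          ∃ q ∈ N S (Real.exp z.1) (Real.exp z.2.1) (Real.exp z.2.2), n ≤ p ∧ p < q} ≤
          K * (n : ℝ) ^ (-(1 / 4 : ℝ)) * tail S n) ∧
    -- every fixed base, in particular `1 + √2`
    (∀ α : ℝ, 1 < α →
      (∀ᵐ w : ℝ × ℝ, (N Set.univ α (Real.exp w.1) (Real.exp w.2)).Finite) ∧
      ∀ S : Set ℕ, S.Infinite → ∀ y0 y1 u0 u1 : ℝ, y0 < y1 → u0 < u1 →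
        Tendsto (fun n : ℕ => volume.real {w ∈ Set.Ioc y0 y1 ×ˢ Set.Ioc u0 u1 |
          n ∈ N S α (Real.exp w.1) (Real.exp w.2)} / (Real.log n / n) ^ 2)
          (atTop ⊓ 𝓟 S) (𝓝 (L' α y0 y1 u0 u1)) ∧
        Tendsto (fun n : ℕ => (∫ w in Set.Ioc y0 y1 ×ˢ Set.Ioc u0 u1,
          ((N S α (Real.exp w.1) (Real.exp w.2) ∩ Set.Ici n).ncard : ℝ)) / tail S n)
          atTop (𝓝 (L' α y0 y1 u0 u1))) := by
  refine ⟨fun p r => ?_, fun n hn h5 => ?_, Pool.Agent.V1193.BP.q2,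
    Pool.Agent.V1193.BP.fin_all Set.univ,
    fun S hS x0 x1 y0 y1 u0 u1 hx0 hx hy hu => Pool.Agent.V1193.BP.laws hx0 hx hy hu hS,
    fun α hα => ⟨(Pool.Agent.V1193.BP.fixed hα Set.univ).1,
      fun S hS y0 y1 u0 u1 hy hu => (Pool.Agent.V1193.BP.fixed hα S).2 hS y0 y1 u0 u1 hy hu⟩⟩
  · simp only [H_eq, R_eq]
    exact Pool.Agent.V1193.BP.Pell.sol_iff p r
  · rw [H_eq, R_eq]
    exact Pool.Agent.V1193.BP.special hn h5

end Pool.Agent.Results.MP_927e73_nt.BothPrimeLaw
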