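import Mathlib
import Pool.Agent.V1193.PG.F
import Pool.Agent.H295R3.Hoheisel

set_option autoImplicit false

/-!
# Prime solutions of `p ^ 2 - 2 r ^ 2 = -1`: how often the values are prime

The positive solutions are `p_k + r_k √2 = (1 + √2) ^ (2 k + 1)`.  With `α = (1 + √2) ^ 2 = 3 + 2 √2`
the number `p_k` is the largest integer below `β α ^ k` for the amplitude `β = (1 + √2) / 2`.  For a
real amplitude `β > 0` let `N β k` be the largest integer below `β α ^ k` and let `E β` be the set of
the `k` with `N β k` prime.  So the first question asks whether `E ((1 + √2) / 2)` is infinite.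

We prove, with constants `c > 0` and `C` that do not depend on the amplitude: for almost every
amplitude, for ALL large `X` and all `Y ≥ X (log X) ^ C`, at least `c log (Y / X)` of the numbers
`N β k`, `X ≤ k ≤ Y`, are prime.  In particular at least `c' log X` of the numbers `N β k`, `k ≤ X`,
are prime, for all large `X`.

The proof.  Primes in short intervals (a positive proportion, Hoheisel's theorem of the starting
library) and the pair sieve in windows of length `α ^ (- κ M)` show that, given the first digits of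
`log β`, a block `[M, 2 M)` of indices contains a prime value with probability at least `q > 0`.  The
blocks `[D R ^ j, 2 D R ^ j)` depend on disjoint groups of digits up to negligible sets, so that the
number of successes in a run of blocks obeys a large deviation estimate.
-/

namespace Pool.Agent.Results.MP_927e73_nt.Growth

open Filter Topology MeasureTheory

/-- The positive solutions of `p ^ 2 - 2 r ^ 2 = -1`. -/
def Sol (p r : ℕ) : Prop := 0 < p ∧ 0 < r ∧ (p : ℤ) ^ 2 - 2 * (r : ℤ) ^ 2 = -1

/-- The numbers `1, 1, 3, 7, 17, 41, …`: the first components of the powers of `1 + √2`. -/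
def H : ℕ → ℕ
  | 0 => 1
  | 1 => 1
  | (n + 2) => 2 * H (n + 1) + H n

/-- The Pell numbers `0, 1, 2, 5, 12, 29, …`: the second components of the powers of `1 + √2`. -/
def R : ℕ → ℕ
  | 0 => 0
  | 1 => 1
  | (n + 2) => 2 * R (n + 1) + R n

/-- The number `3 + 2 √2`. -/
noncomputable def α : ℝ := (1 + Real.sqrt 2) ^ 2

/-- The largest integer below `β α ^ k`. -/
noncomputable def N (β : ℝ) (k : ℕ) : ℕ := ⌈β * α ^ k⌉₊ - 1

/-- The indices of the prime values. -/
def E (β : ℝ) : Set ℕ := {k | (N β k).Prime}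

lemma H_eq (n : ℕ) : H n = Pool.Agent.V1193.BP.Pell.H n := by
  induction n using Nat.twoStepInduction with
  | zero => rfl
  | one => rfl
  | more n h1 h2 =>
    show 2 * H (n + 1) + H n = 2 * Pool.Agent.V1193.BP.Pell.H (n + 1) + Pool.Agent.V1193.BP.Pell.H n
    rw [h1, h2]

lemma R_eq (n : ℕ) : R n = Pool.Agent.V1193.BP.Pell.R n := by
  induction n using Nat.twoStepInduction with
  | zero => rfl
  | one => rfl
  | more n h1 h2 =>
    show 2 * R (n + 1) + R n = 2 * Pool.Agent.V1193.BP.Pell.R (n + 1) + Pool.Agent.V1193.BP.Pell.R n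
    rw [h1, h2]

/-- **Main theorem.** -/
theorem result :
    -- the solutions of the equation, the values at the amplitude `(1 + √2) / 2`, the first question
    (∀ p r : ℕ, Sol p r ↔ ∃ k : ℕ, p = H (2 * k + 1) ∧ r = R (2 * k + 1)) ∧
    (∀ k : ℕ, N ((1 + Real.sqrt 2) / 2) k = H (2 * k + 1)) ∧
    ({p : ℕ | p.Prime ∧ ∃ r : ℕ, Sol p r}.Infinite ↔ (E ((1 + Real.sqrt 2) / 2)).Infinite) ∧
    -- the number of prime values in all intervals `[X, Y]` with `Y ≥ X (log X) ^ C`
    (∃ (c : ℝ) (C : ℕ), 0 < c ∧ ∀ᵐ β : ℝ, 0 < β → ∀ᶠ X : ℕ in atTop, ∀ Y : ℕ,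
      (X : ℝ) * Real.log X ^ C ≤ Y →
      c * Real.log ((Y : ℝ) / X) ≤ ((E β ∩ Set.Icc X Y).ncard : ℝ)) ∧
    -- the number of prime values up to `X`
    (∃ c : ℝ, 0 < c ∧ ∀ᵐ β : ℝ, 0 < β → ∀ᶠ X : ℕ in atTop,
      c * Real.log X ≤ ((E β ∩ Set.Icc 1 X).ncard : ℝ)) := by
  refine ⟨fun p r => ?_, fun k => ?_, Pool.Agent.V1193.PG.question2,
    Pool.Agent.V1193.PG.spread Pool.Agent.V1193.PG.al2_gt Pool.Agent.V1193.PG.dio2
      Pool.Agent.H295R3.D.hoheisel 0,
    Pool.Agent.V1193.PG.dens Pool.Agent.V1193.PG.al2_gt Pool.Agent.V1193.PG.dio2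
      Pool.Agent.H295R3.D.hoheisel 0⟩
  · simp only [H_eq, R_eq]
    exact Pool.Agent.V1193.BP.Pell.sol_iff p r
  · rw [H_eq]
    exact Pool.Agent.V1193.PG.value2 k

end Pool.Agent.Results.MP_927e73_nt.Growth
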